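import Mathlib
import Pool.Agent.Helper99.SZ.Stmts3

set_option autoImplicit false

namespace Pool.Helper99.SZ

open NumberField

theorem st_LIP (h1 : ST_PLV) (h2 : ST_DVB) : ST_LIP := by
  intro n D L _ _ hfr P hP hPb p hp hpP T g0 g nrm G Z hLD hT
  obtain ⟨d1, d2, d3, d4, d5, d6, d7, d8, d9⟩ := h2 L P hP hPb
  have hν : (1 : ℝ) ≤ nrm (1, 0) := by
    have := hLD.co0 (1, 0)
    simpa using this
  set ν := nrm (1, 0) with hνd
  have hg0 : g0 ≠ 1 := by
    have := hLD.tor 1 one_ne_zero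
    simpa using this
  have hconj := hLD.conj (1, 0)
  have hden := hLD.den (1, 0)
  have e0 : g0 ^ (((1 : ℤ), (0 : Fin n → ℤ)) : ℤ × (Fin n → ℤ)).1 *
      ∏ i, g i ^ ((((1 : ℤ), (0 : Fin n → ℤ)) : ℤ × (Fin n → ℤ)).2 i) = g0 := by simp
  rw [e0] at hden
  simp only [e0] at hconj
  obtain ⟨q, hq0, hqe, hqi⟩ := hden
  have hint : IsIntegral ℤ ((q : L) * (g0 - 1)) := by
    have : (q : L) * (g0 - 1) = (q : L) * g0 - ((q : ℤ) : L) := by push_cast; ring
    rw [this]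
    exact hqi.sub isIntegral_algebraMap
  obtain ⟨w, hw⟩ : ∃ w : 𝓞 L, (w : L) = (q : L) * (g0 - 1) := ⟨⟨_, hint⟩, rfl⟩
  have hq0' : (q : L) ≠ 0 := by
    exact_mod_cast hq0.ne'
  have hw0 : w ≠ 0 := by
    intro h
    rw [h] at hw
    simp only [map_zero] at hw
    exact (mul_ne_zero hq0' (sub_ne_zero.mpr hg0)) hw.symm
  have hDv : Dv P T (w : L) := by
    rw [hw]
    have hq : Dv P 0 (q : L) := by
      have := d1 (q : 𝓞 L)
      simpa using this
    have := d5 0 T _ _ hq hT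
    simpa using this
  have hmem := d9 T w hDv
  have hM1 : (1 : ℝ) ≤ 2 * Real.exp (2 * ν) := by
    have : (1 : ℝ) ≤ Real.exp (2 * ν) := Real.one_le_exp (by linarith)
    linarith
  have hb : ∀ τ : L →+* ℂ, ‖τ (w : L)‖ ≤ 2 * Real.exp (2 * ν) := by
    intro τ
    rw [hw, map_mul, norm_mul, map_natCast, Complex.norm_natCast, map_sub, map_one]
    have h3 : ‖τ g0 - 1‖ ≤ Real.exp ν + 1 := by
      calc ‖τ g0 - 1‖ ≤ ‖τ g0‖ + ‖(1 : ℂ)‖ := norm_sub_le _ _
        _ ≤ Real.exp ν + 1 := by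
          have := hconj τ
          simp only [norm_one]
          linarith
    have h4 : (1 : ℝ) ≤ Real.exp ν := Real.one_le_exp (by linarith)
    have h5 : Real.exp (2 * ν) = Real.exp ν * Real.exp ν := by rw [← Real.exp_add]; ring_nf
    have h6 : (q : ℝ) * ‖τ g0 - 1‖ ≤ Real.exp ν * (Real.exp ν + 1) :=
      mul_le_mul hqe h3 (norm_nonneg _) (Real.exp_pos _).le
    nlinarith
  have hmain := h1 L P hP hPb p hp hpP T w hw0 hmem _ hM1 hb
  have hlog : Real.log (2 * Real.exp (2 * ν)) ≤ 3 * ν := by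
    rw [Real.log_mul (by norm_num) (Real.exp_pos _).ne', Real.log_exp]
    have : Real.log 2 ≤ 1 := by
      have := Real.log_two_lt_d9
      linarith
    linarith
  have hfr' : (Module.finrank ℚ L : ℝ) ≤ D := by exact_mod_cast hfr
  have hl0 : 0 ≤ Real.log (2 * Real.exp (2 * ν)) := Real.log_nonneg hM1
  calc (T : ℝ) * Real.log p ≤ Module.finrank ℚ L * Real.log (2 * Real.exp (2 * ν)) := hmain
    _ ≤ D * (3 * ν) := mul_le_mul hfr' hlog hl0 (Nat.cast_nonneg _)
    _ = 3 * D * ν := by ring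

end Pool.Helper99.SZ
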