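import Mathlib
import Pool.Agent.Helper99.SZ.Stmts3

set_option autoImplicit false

namespace Pool.Helper99.SZ

open NumberField

theorem pm3_num (n D : ℕ) (hD : 1 ≤ D) (G X U ℓ Θ : ℝ) (K Lc : ℕ) (hG : 1 ≤ G) (hX : G ≤ X)
    (hℓ : 1 ≤ ℓ) (hΘ : 10 ^ 9 * ((n : ℝ) + 1) ^ 5 * (D : ℝ) ^ 2 * (1 + ℓ / G) ≤ Θ)
    (hU : U = 8 * ((n : ℝ) + 1) * X * Θ ^ n) (hK : K = ⌈4096 * ((n : ℝ) + 1) * D * U / G⌉₊)
    (hL : Lc = ⌈4096 * ((n : ℝ) + 1) ^ 2 * D * ℓ / G⌉₊ + 32 * (n + 1)) :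
    1 ≤ U ∧ 4096 * ((n : ℝ) + 1) * D * U ≤ K * G ∧ 4096 * ((n : ℝ) + 1) ^ 2 * D * ℓ ≤ Lc * G ∧
      32 * (n + 1) ≤ Lc ∧ 3 * D * U ≤ X * Θ ^ (n + 1) ∧ 2 * K * Lc * G ≤ X * Θ ^ (n + 1) := by
  have hn : (0 : ℝ) ≤ n := Nat.cast_nonneg n
  have hn1 : (1 : ℝ) ≤ (n : ℝ) + 1 := by linarith
  have hD1 : (1 : ℝ) ≤ D := by exact_mod_cast hD
  have hG0 : 0 < G := by linarith
  have hX1 : 1 ≤ X := by linarith
  have hX0 : 0 < X := by linarith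
  have hr : 0 ≤ ℓ / G := by positivity
  have hLc : (Lc : ℝ) = (⌈4096 * ((n : ℝ) + 1) ^ 2 * D * ℓ / G⌉₊ : ℝ) + 32 * ((n : ℝ) + 1) := by
    rw [hL]; push_cast; ring
  have hceilL : 4096 * ((n : ℝ) + 1) ^ 2 * D * ℓ / G ≤
      (⌈4096 * ((n : ℝ) + 1) ^ 2 * D * ℓ / G⌉₊ : ℝ) := Nat.le_ceil _
  have hceilL2 : (⌈4096 * ((n : ℝ) + 1) ^ 2 * D * ℓ / G⌉₊ : ℝ) <
      4096 * ((n : ℝ) + 1) ^ 2 * D * ℓ / G + 1 := Nat.ceil_lt_add_one (by positivity)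
  have hL32 : 32 * (n + 1) ≤ Lc := by rw [hL]; omega
  clear hL
  generalize (n : ℝ) + 1 = N at *
  have hN0 : 0 < N := by linarith
  have hD0 : (0 : ℝ) < D := by linarith
  have h3 : (1 : ℝ) ≤ 1 + ℓ / G := by linarith
  have hN5 : (1 : ℝ) ≤ N ^ 5 := one_le_pow₀ hn1
  have hN4 : (1 : ℝ) ≤ N ^ 4 := one_le_pow₀ hn1
  have hD2 : (1 : ℝ) ≤ (D : ℝ) ^ 2 := one_le_pow₀ hD1
  have hDN : (D : ℝ) * N ≤ N ^ 5 * (D : ℝ) ^ 2 * (1 + ℓ / G) := by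
    have e : N ^ 5 * (D : ℝ) ^ 2 * (1 + ℓ / G) = (D * N) * (N ^ 4 * (D * (1 + ℓ / G))) := by ring
    rw [e]
    have : (1 : ℝ) ≤ N ^ 4 * (D * (1 + ℓ / G)) :=
      one_le_mul_of_one_le_of_one_le hN4 (one_le_mul_of_one_le_of_one_le hD1 h3)
    exact le_mul_of_one_le_right (by positivity) this
  have hΘ24 : 24 * (D * N) ≤ Θ := by
    have h1 : (0 : ℝ) < D * N := by positivity
    have h2 : 10 ^ 9 * N ^ 5 * (D : ℝ) ^ 2 * (1 + ℓ / G) =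
      10 ^ 9 * (N ^ 5 * (D : ℝ) ^ 2 * (1 + ℓ / G)) := by ring
    rw [h2] at hΘ
    linarith
  have hDN1 : (1 : ℝ) ≤ D * N := one_le_mul_of_one_le_of_one_le hD1 hn1
  have hΘ1 : 1 ≤ Θ := by linarith
  have hΘ0 : 0 < Θ := by linarith
  have hΘn : (1 : ℝ) ≤ Θ ^ n := one_le_pow₀ hΘ1
  have hU' : U = 8 * (N * (X * Θ ^ n)) := by rw [hU]; ring
  have hXT : X ≤ N * (X * Θ ^ n) := by
    have h1 : X ≤ X * Θ ^ n := le_mul_of_one_le_right (by positivity) hΘn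
    have h2 : X * Θ ^ n ≤ N * (X * Θ ^ n) := le_mul_of_one_le_left (by positivity) hn1
    linarith
  have hUX : 8 * X ≤ U := by rw [hU']; linarith
  have hU1 : 1 ≤ U := by linarith
  have hUG : G ≤ U := by linarith
  have hU0 : 0 < U := by linarith
  have hKG : 4096 * N * D * U ≤ K * G := by
    have h1 : 4096 * N * D * U / G ≤ K := by rw [hK]; exact Nat.le_ceil _
    rwa [div_le_iff₀ hG0] at h1
  have hKG2 : (K : ℝ) * G ≤ 4097 * (N * D * U) := by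
    have h1 : (K : ℝ) < 4096 * N * D * U / G + 1 := by
      rw [hK]; exact Nat.ceil_lt_add_one (by positivity)
    have h2 : (K : ℝ) * G ≤ (4096 * N * D * U / G + 1) * G :=
      mul_le_mul_of_nonneg_right h1.le hG0.le
    have h3 : (4096 * N * D * U / G + 1) * G = 4096 * N * D * U + G := by
      field_simp
    have h4 : G ≤ N * D * U := by
      have : (1 : ℝ) ≤ N * D := one_le_mul_of_one_le_of_one_le hn1 hD1
      have : U ≤ N * D * U := le_mul_of_one_le_left hU0.le this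
      linarith
    have h5 : 4096 * N * D * U = 4096 * (N * D * U) := by ring
    linarith
  have hLc2 : (Lc : ℝ) ≤ 4129 * (N ^ 2 * D * (1 + ℓ / G)) := by
    have h1 : 4096 * N ^ 2 * D * ℓ / G = 4096 * (N ^ 2 * D * (ℓ / G)) := by ring
    have h2 : (1 : ℝ) ≤ N * D := one_le_mul_of_one_le_of_one_le hn1 hD1
    have h3 : N ≤ N ^ 2 * D := by
      have : N ^ 2 * D = N * (N * D) := by ring
      rw [this]
      exact le_mul_of_one_le_right hN0.le h2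
    have h4 : (1 : ℝ) ≤ N ^ 2 * D := le_trans hn1 h3
    have h5 : 0 ≤ N ^ 2 * D * (ℓ / G) := by positivity
    rw [hLc]
    nlinarith
  refine ⟨hU1, hKG, ?_, hL32, ?_, ?_⟩
  · have h1 : 4096 * N ^ 2 * D * ℓ / G ≤ Lc := by
      rw [hLc]; linarith
    rwa [div_le_iff₀ hG0] at h1
  · have e1 : 3 * D * U = (24 * (D * N)) * (X * Θ ^ n) := by rw [hU']; ring
    have e2 : X * Θ ^ (n + 1) = Θ * (X * Θ ^ n) := by ring
    rw [e1, e2]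
    exact mul_le_mul_of_nonneg_right hΘ24 (by positivity)
  · have e1 : 2 * K * Lc * G = 2 * ((K * G) * Lc) := by ring
    have h1 : (K : ℝ) * G * Lc ≤ (4097 * (N * D * U)) * (4129 * (N ^ 2 * D * (1 + ℓ / G))) :=
      mul_le_mul hKG2 hLc2 (by positivity) (by positivity)
    have e2 : 2 * ((4097 * (N * D * U)) * (4129 * (N ^ 2 * D * (1 + ℓ / G)))) =
        (270664208 * (N ^ 4 * (D : ℝ) ^ 2 * (1 + ℓ / G))) * (X * Θ ^ n) := by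
      rw [hU']; ring
    have h2 : 270664208 * (N ^ 4 * (D : ℝ) ^ 2 * (1 + ℓ / G)) ≤ Θ := by
      have e3 : 10 ^ 9 * N ^ 5 * (D : ℝ) ^ 2 * (1 + ℓ / G) =
        10 ^ 9 * (N * (N ^ 4 * (D : ℝ) ^ 2 * (1 + ℓ / G))) := by ring
      rw [e3] at hΘ
      have h3 : 0 ≤ N ^ 4 * (D : ℝ) ^ 2 * (1 + ℓ / G) := by positivity
      have h4 : N ^ 4 * (D : ℝ) ^ 2 * (1 + ℓ / G) ≤ N * (N ^ 4 * (D : ℝ) ^ 2 * (1 + ℓ / G)) :=
        le_mul_of_one_le_left h3 hn1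
      linarith
    have e4 : X * Θ ^ (n + 1) = Θ * (X * Θ ^ n) := by ring
    rw [e1, e4]
    calc 2 * ((K : ℝ) * G * Lc) ≤ 2 * ((4097 * (N * D * U)) * (4129 * (N ^ 2 * D * (1 + ℓ / G)))) :=
          by linarith
      _ = _ := e2
      _ ≤ _ := mul_le_mul_of_nonneg_right h2 (by positivity)

theorem st_PM3 (h1 : ST_PN3) (h2 : ST_PMU) (h3 : ST_LIP) : ST_PM3 := by
  intro n D hD L _ _ hfr P hP hPb p hp hpP jj T g0 g nrm G Z X U ℓ Θ hjj hG hZ hGj hLD hT hg hO hX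
    hℓ hΘ hU hZU hcnt
  obtain ⟨a1, a2, a3, a4, a5, a6⟩ := pm3_num n D hD G X U ℓ Θ _ _ hG hX hℓ hΘ hU rfl rfl
  have hp1 : (1 : ℝ) < p := by exact_mod_cast hp.one_lt
  have hlp : 0 < Real.log p := Real.log_pos hp1
  by_cases hT' : ⌈4096 * ((n : ℝ) + 1) * D * U / G⌉₊ *
      (⌈4096 * ((n : ℝ) + 1) ^ 2 * D * ℓ / G⌉₊ + 32 * (n + 1)) * jj ≤ T
  · have hV := h1 n D hD L hfr P hP hPb p hp hpP jj T g0 g nrm G Z U ℓ _ _ hjj hG hZ hGj.le hLD hT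
      hg hO a1 hℓ hZU a2 a3 a4 hT'
    have hle : nrm (1, 0) ≤ U := by
      by_contra hcon
      exact h2 n D hD L g0 g nrm G Z X U ℓ Θ _ _ hG hLD hX hℓ hΘ hU rfl rfl hcnt
        (not_le.mp hcon) hV
    have hli := h3 n D L hfr P hP hPb p hp hpP T g0 g nrm G Z hLD hT
    have : 3 * (D : ℝ) * nrm (1, 0) ≤ 3 * D * U := mul_le_mul_of_nonneg_left hle (by positivity)
    linarith
  · have hlt : (T : ℝ) ≤ ((⌈4096 * ((n : ℝ) + 1) * D * U / G⌉₊ *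
      (⌈4096 * ((n : ℝ) + 1) ^ 2 * D * ℓ / G⌉₊ + 32 * (n + 1)) * jj : ℕ) : ℝ) := by
      exact_mod_cast (not_le.mp hT').le
    rw [Nat.cast_mul, Nat.cast_mul] at hlt
    have h5 := mul_le_mul_of_nonneg_right hlt hlp.le
    have e : (⌈4096 * ((n : ℝ) + 1) * D * U / G⌉₊ : ℝ) *
      ((⌈4096 * ((n : ℝ) + 1) ^ 2 * D * ℓ / G⌉₊ + 32 * (n + 1) : ℕ) : ℝ) * jj * Real.log p =
      (⌈4096 * ((n : ℝ) + 1) * D * U / G⌉₊ : ℝ) *
      ((⌈4096 * ((n : ℝ) + 1) ^ 2 * D * ℓ / G⌉₊ + 32 * (n + 1) : ℕ) : ℝ) * G := by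
      rw [hGj]; ring
    rw [e] at h5
    have h6 : 0 ≤ (⌈4096 * ((n : ℝ) + 1) * D * U / G⌉₊ : ℝ) *
      ((⌈4096 * ((n : ℝ) + 1) ^ 2 * D * ℓ / G⌉₊ + 32 * (n + 1) : ℕ) : ℝ) * G := by positivity
    nlinarith

end Pool.Helper99.SZ
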